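import Pool.Agent.H98.EQ.Fin

set_option autoImplicit false

/-!
# Polygons with a long chain of shortest sides are determined by their Dirichlet spectrum

Let `P` be a convex polygon with `N ≥ 5` vertices. Let `N - 2` consecutive sides of `P` have the same
length `s` and obtuse angles at their ends, while the two others, with the angle `θ` between them, are
at least as long (longer than `s / sin θ` if `θ` is acute or right). Suppose that

* the angles of `P` are pairwise different, or
* `P` is equilateral, and the numbers of pairs of neighbours determine the cyclic sequence of its angles
  up to rotation and reflection, or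
* `P` is an equilateral pentagon.

Then each bounded convex domain with the same Dirichlet spectrum is congruent to `P`.

Main idea: `4 π t` times the heat trace is the expected area of the set of positions of a random loop
(a Brownian bridge of duration `t`) inside the domain. After the three classical heat invariants are
subtracted, its leading term for `t → 0` is, for a convex polygon with at least five vertices, the sum
of the contributions of all sides whose neighbours have the least distance of non-adjacent sides. The
Laplace transform of the contribution of a side is evaluated up to an error which is exponentially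
smaller: it is a Laplace integral of a density which is analytic near the left end point. The analytic
continuation of this density has a singularity determined by the larger one of the two exterior angles
of the side, with a nontrivial monodromy which determines the other one; so the sum of the densities
determines the multiset of the pairs of angles, however many sides contribute. The angles of `P` at the
ends of its shortest sides occur in an isospectral polygon `Q`, too; the sum of the angles, the sum of
the corner coefficients and the strict superadditivity of the latter show that there is at most one
other angle, the same as in `P`; the pairs of neighbours determine the cyclic order, and the lengths of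
the two remaining sides are determined since the polygon closes up. If `P` is equilateral, then so is
`Q`, since the perimeters agree. Polygons `Q` with fewer than five vertices are excluded by the theory
of isospectral quadrilaterals. An equilateral pentagon with two equal angles has an axis of symmetry.
-/

open Set MeasureTheory Filter
open Pool.Agent.W780.PG (IsConvexPolygon region)
open Pool.Agent.W703.GP (dirichletEigenvalue)
open scoped Real

namespace Pool.Agent.Results.MP_5b0138_an.ChainsOfShortestSides

/-- a bounded convex domain of the plane -/
structure ConvexDomain (D : Set ℂ) : Prop where
  isOpen : IsOpen D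
  convex : Convex ℝ D
  isBounded : Bornology.IsBounded D
  nonempty : D.Nonempty

/-- all Dirichlet eigenvalues, with multiplicity, agree; if `D` is a polygon (the interior of the
convex hull of finitely many points), then finitely many exceptions are allowed -/
def SameSpectrum (P D : Set ℂ) : Prop :=
  (∀ k : ℕ, 1 ≤ k → dirichletEigenvalue P k = dirichletEigenvalue D k) ∨
    (∃ S : Set ℂ, S.Finite ∧ D = interior (convexHull ℝ S)) ∧
      ∀ᶠ k in atTop, dirichletEigenvalue P k = dirichletEigenvalue D k

/-- the length of the side from `p k` to `p (k + 1)` -/
noncomputable def side {n : ℕ} (p : Fin (n + 3) → ℂ) (k : Fin (n + 3)) : ℝ := ‖p (k + 1) - p k‖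

/-- the interior angle at the vertex `p k` -/
noncomputable def vertexAngle {n : ℕ} (p : Fin (n + 3) → ℂ) (k : Fin (n + 3)) : ℝ :=
  EuclideanGeometry.angle (p (k - 1)) (p k) (p (k + 1))

open Classical in
/-- the number of pairs of neighbours with the values `x` and `y`, in some order -/
noncomputable def pairs {N : ℕ} (a : Fin (N + 3) → ℝ) (x y : ℝ) : ℕ :=
  (Finset.univ.filter fun k => (a k = x ∧ a (k + 1) = y) ∨ (a k = y ∧ a (k + 1) = x)).card

/-- the numbers of pairs of neighbours determine the cyclic sequence up to rotation and
reflection -/
def NeighboursDetermine {N : ℕ} (a : Fin (N + 3) → ℝ) : Prop :=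
  ∀ b : Fin (N + 3) → ℝ, (∀ x y, pairs a x y = pairs b x y) →
    ∃ c : Fin (N + 3), (∀ i, b (c + i) = a i) ∨ ∀ i, b (c - i) = a i

/-- `IsConvexPolygon p` says that `p : Fin (n + 2 + 3) → ℂ` lists the `n + 5` vertices of a convex
polygon in counterclockwise order, and `region p` is its interior. The exceptional sides meet at the
vertex `p (j + 1)`; `φ : ℂ ≃ᵢ ℂ` is an isometry of the plane. -/
theorem result (n : ℕ) (p : Fin (n + 2 + 3) → ℂ) (hp : IsConvexPolygon p) (D : Set ℂ)
    (hD : ConvexDomain D) (h : SameSpectrum (region p) D) (j : Fin (n + 2 + 3)) (s : ℝ)
    (hs : ∀ k, k ≠ j → k ≠ j + 1 → side p k = s)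
    (ha : ∀ k, k ≠ j + 1 → π / 2 < vertexAngle p k)
    (h1 : π / 2 < vertexAngle p (j + 1) → s ≤ side p j ∧ s ≤ side p (j + 1))
    (h2 : vertexAngle p (j + 1) ≤ π / 2 → s < side p j * Real.sin (vertexAngle p (j + 1)) ∧
      s < side p (j + 1) * Real.sin (vertexAngle p (j + 1)))
    (hx : Function.Injective (vertexAngle p) ∨
      (∀ k, side p k = s) ∧ (NeighboursDetermine (vertexAngle p) ∨ n = 0)) :
    ∃ φ : ℂ ≃ᵢ ℂ, φ '' region p = D :=
  Pool.Agent.H98.EQ.main (Nat.le_add_left 2 n) hp ⟨hD.isOpen, hD.convex, hD.isBounded, hD.nonempty⟩
    h j s hs ha h1 h2 (hx.imp_right fun h => ⟨h.1, h.2.imp_right fun h => by rw [h]⟩)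

end Pool.Agent.Results.MP_5b0138_an.ChainsOfShortestSides
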