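import Pool.Agent.H98.ED.Poly

set_option autoImplicit false

/-!
# Dirichlet spectra of convex polygons which are exponentially close on one side are equal

Let `P` and `Q` be convex polygons with the same area, the same perimeter and the same sum of
`(π ^ 2 - α ^ 2) / α` over the angles `α` (this is all that the classical heat invariants contain). If
`λ k (P) ≤ λ k (Q) + δ k` for all `k`, where the numbers `δ k` may be zero, or exponentially small in
`√k`, or arbitrary for finitely many `k`, then `P` and `Q` are isospectral. So if they are not
isospectral, then the difference `λ k (P) - λ k (Q)` changes its sign infinitely often, and neither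
its positive nor its negative part decays exponentially in `√k`. If the difference is exponentially
small on both sides, nothing has to be assumed about area, perimeter and angles: no two different
Dirichlet spectra of convex polygons are exponentially close. Triangles and parallelograms are
therefore determined up to congruence, among all convex polygons, by any sequence of numbers which is
exponentially close to their spectrum.

Main idea: let `N` be the difference of the counting functions of the eigenvalues of `P` and `Q`. The
Laplace transform of `N` vanishes at zero to infinite order, because the heat trace of a convex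
polygon has no further terms. The negative part of `N` has finite moments, with exponential decay in
the square root. Fatou's lemma shows, one moment after the other, that the positive part has finite
moments too and that they are the same. Such a moment problem on the half-line is determinate: after
the substitution of the square root the moment generating functions are analytic and agree, hence
the positive and the negative part of `N` are equal.
-/

open Set MeasureTheory
open Pool.Agent.W780.PG (IsConvexPolygon region ang)
open Pool.Agent.W703.GP (dirichletEigenvalue)
open scoped Real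

namespace Pool.Agent.Results.MP_5b0138_an.ExponentiallyCloseSpectra

/-- the perimeter -/
noncomputable def perimeter {n : ℕ} (p : Fin (n + 3) → ℂ) : ℝ := ∑ i, ‖p (i + 1) - p i‖

/-- the sum over the interior angles `ang p i` which occurs in the heat trace -/
noncomputable def angleSum {n : ℕ} (p : Fin (n + 3) → ℂ) : ℝ :=
  ∑ i, (π ^ 2 - ang p i ^ 2) / ang p i

/-- `p : Fin (n + 3) → ℂ` with `IsConvexPolygon p` lists the vertices of an arbitrary convex polygon
`region p` with `n + 3` vertices, in counterclockwise order. The interiors of the convex hulls of the
finite sets `S` and `T`, if not empty, are arbitrary convex polygons. -/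
theorem result :
    (∀ (n m : ℕ) (p : Fin (n + 3) → ℂ) (q : Fin (m + 3) → ℂ) (c : ℝ),
      IsConvexPolygon p → IsConvexPolygon q → volume (region p) = volume (region q) →
      perimeter p = perimeter q → angleSum p = angleSum q → 0 < c →
      (Summable fun k : ℕ => max (dirichletEigenvalue (region p) (k + 1) -
        dirichletEigenvalue (region q) (k + 1)) 0 * Real.exp (c * √(k + 1))) →
      ∀ k : ℕ, 1 ≤ k → dirichletEigenvalue (region p) k = dirichletEigenvalue (region q) k) ∧
    ∀ (S T : Set ℂ) (c : ℝ), S.Finite → T.Finite → (interior (convexHull ℝ S)).Nonempty →
      (interior (convexHull ℝ T)).Nonempty → 0 < c →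
      (Summable fun k : ℕ => |dirichletEigenvalue (interior (convexHull ℝ S)) (k + 1) -
        dirichletEigenvalue (interior (convexHull ℝ T)) (k + 1)| * Real.exp (c * √(k + 1))) →
      (∀ k : ℕ, 1 ≤ k → dirichletEigenvalue (interior (convexHull ℝ S)) k =
        dirichletEigenvalue (interior (convexHull ℝ T)) k) ∧
      (((∃ u v w : ℂ, S = {u, v, w}) ∨ ∃ u v w : ℂ, S = {u, v, v + w - u, w}) →
        ∃ φ : ℂ ≃ᵢ ℂ, φ '' interior (convexHull ℝ S) = interior (convexHull ℝ T)) := by
  have hπ := Real.pi_pos
  refine ⟨fun n m p q c hp hq hA hL hU hc h k _ => ?_, fun S T c hS hT hS' hT' hc h => ?_⟩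
  · refine Pool.Agent.H98.ED.one_sided hp hq (congrArg ENNReal.toReal hA) hL ?_ hc h k
    have e : ∀ x : ℝ, (π ^ 2 - x ^ 2) / (24 * π * x) = (24 * π)⁻¹ * ((π ^ 2 - x ^ 2) / x) :=
      fun x => by rw [mul_comm (24 * π) x, ← div_div, div_eq_inv_mul]
    simp only [e]
    rw [← Finset.mul_sum, ← Finset.mul_sum]
    exact congrArg _ hU
  · obtain ⟨m, q, hq, e⟩ : ∃ (m : ℕ) (q : Fin (m + 3) → ℂ), IsConvexPolygon q ∧
        region q = interior (convexHull ℝ T) := Pool.Agent.Y459.HI.vs T hT hT'
    obtain ⟨n, p, hp, e'⟩ : ∃ (n : ℕ) (p : Fin (n + 3) → ℂ), IsConvexPolygon p ∧
        region p = interior (convexHull ℝ S) := Pool.Agent.Y459.HI.vs S hS hS'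
    have hi : Pool.Agent.W703.GP.Isospectral (interior (convexHull ℝ S)) (region q) := by
      rw [← e']
      rw [← e, ← e'] at h
      exact Pool.Agent.H98.ED.two_sided hp hq hc h
    rw [← e]
    refine ⟨fun k _ => hi k, ?_⟩
    rintro (⟨a, b, c, rfl⟩ | ⟨a, b, c, rfl⟩)
    · obtain ⟨p', hp', e2⟩ := Pool.Agent.R225.LP.tri_poly a b c hS'
      rw [← e2] at hi ⊢
      exact Pool.Agent.R225.LP.triangle p' hp' m q hq hi
    · exact Pool.Agent.H98.SD.par_iso hS' hq hi

end Pool.Agent.Results.MP_5b0138_an.ExponentiallyCloseSpectra
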