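import Pool.Agent.H98.SD.Fin

set_option autoImplicit false

/-!
# Convex polygons whose Dirichlet spectra differ in a sparse set are isospectral

By Weyl's law a convex polygon has about `r |P| / (4 π)` Dirichlet eigenvalues below `r`. Here the
spectra of two convex polygons are compared as multisets. If at most `o(√r)` elements below `r` of
one of the two spectra (with multiplicity) are missing in the other, then the spectra are the same.
So almost all of the spectrum determines all of it: one can neither remove nor add nor move an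
infinite set of eigenvalues, as long as it is sparser than the second term of Weyl's law. This is
quantitative: `κ √r + C` different eigenvalues below `r` are allowed if `π κ < d`, and even if
`π κ < 2 d` for equal perimeters, where both polygons contain a disc of diameter `d` and have no two
non-adjacent sides at distance less than `d`. Triangles, parallelograms and regular polygons are
therefore determined up to congruence, among all convex polygons, by a part of their spectrum.

Main idea: the difference `D(t)` of the heat traces is the sum of `± exp (- t μ)` over the different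
eigenvalues `μ`, and it equals `b / √t + c` up to an error of the order `exp (-d ^ 2 / t)`. So its
Laplace transform `S(w)`, the sum of `± 1 / (μ + w ^ 2)`, equals `b' / w + c / w ^ 2` up to an error
of the order `exp (-2 d w)` for large positive `w`. Let `P(w)` be the product of all
`1 + w ^ 2 / μ`. Then `P` and `P S` are even entire functions of exponential type `π κ`. The product
of `w ^ 2 P S - c P - b' w P` and `w ^ 2 P S - c P + b' w P` is an entire function which is of the
order `exp ((2 π κ - 2 d) |w|)` on the real line; if `π κ < d`, it vanishes (Phragmén-Lindelöf). If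
`b' = 0`, the first factor is of the order `exp ((π κ - 2 d) |w|)` and vanishes if `π κ < 2 d`.
-/

open Set
open Pool.Agent.W780.PG (IsConvexPolygon region)
open Pool.Agent.W703.GP (dirichletEigenvalue)
open scoped Real

namespace Pool.Agent.Results.MP_5b0138_an.SparseSpectralDifferences

/-- the multiplicity of the number `x` as a Dirichlet eigenvalue of `Ω` -/
noncomputable def mult (Ω : Set ℂ) (x : ℝ) : ℕ := {k : ℕ | 1 ≤ k ∧ dirichletEigenvalue Ω k = x}.ncard

/-- at most `B` eigenvalues up to `r`, counted with multiplicity, belong only to one of the two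
spectra: the sum of `|mult Ω x - mult Ω' x|` over all `x ≤ r` is at most `B` -/
def DifferAtMost (Ω Ω' : Set ℂ) (r B : ℝ) : Prop :=
  ∀ F : Finset ℝ, (∀ x ∈ F, x ≤ r) → ∑ x ∈ F, |(mult Ω x : ℝ) - mult Ω' x| ≤ B

/-- only `o(√r)` eigenvalues up to `r` belong only to one of the two spectra -/
def AlmostIsospectral (Ω Ω' : Set ℂ) : Prop :=
  ∀ κ : ℝ, 0 < κ → ∃ C : ℝ, ∀ r : ℝ, 0 ≤ r → DifferAtMost Ω Ω' r (κ * √r + C)

/-- the polygon contains a disc of diameter `d`, and two sides which are not adjacent have at least
the distance `d` -/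
def Room (d : ℝ) {n : ℕ} (p : Fin (n + 3) → ℂ) : Prop :=
  (∃ z : ℂ, Metric.ball z (d / 2) ⊆ region p) ∧
  ∀ i j : Fin (n + 3), j ≠ i → j ≠ i + 1 → i ≠ j + 1 →
    ∀ x ∈ segment ℝ (p i) (p (i + 1)), ∀ y ∈ segment ℝ (p j) (p (j + 1)), d ≤ dist x y

/-- the perimeter -/
noncomputable def perimeter {n : ℕ} (p : Fin (n + 3) → ℂ) : ℝ := ∑ i, ‖p (i + 1) - p i‖

/-- the points span a triangle, a parallelogram, or are the vertices of a regular polygon -/
def IsSpecial (S : Set ℂ) : Prop :=
  (∃ a b c : ℂ, S = {a, b, c}) ∨ (∃ a b c : ℂ, S = {a, b, b + c - a, c}) ∨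
  ∃ (n : ℕ) (c v : ℂ), c ≠ 0 ∧
    S = Set.range fun j : Fin (n + 3) => c * Complex.exp (2 * π * (j : ℕ) / (n + 3) * Complex.I) + v

/-- `p : Fin (n + 3) → ℂ` with `IsConvexPolygon p` lists the vertices of an arbitrary convex polygon
`region p` with `n + 3` vertices, in counterclockwise order. The interiors of the convex hulls of the
finite sets `S` and `T`, if not empty, are arbitrary convex polygons. -/
theorem result :
    (∀ (n m : ℕ) (p : Fin (n + 3) → ℂ) (q : Fin (m + 3) → ℂ) (d κ C : ℝ),
      IsConvexPolygon p → IsConvexPolygon q → 0 < d → Room d p → Room d q →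
      (π * κ < d ∨ perimeter p = perimeter q ∧ π * κ < 2 * d) →
      (∀ r : ℝ, 0 ≤ r → DifferAtMost (region p) (region q) r (κ * √r + C)) →
      ∀ k : ℕ, 1 ≤ k → dirichletEigenvalue (region p) k = dirichletEigenvalue (region q) k) ∧
    ∀ S T : Set ℂ, S.Finite → T.Finite → (interior (convexHull ℝ S)).Nonempty →
      (interior (convexHull ℝ T)).Nonempty →
      AlmostIsospectral (interior (convexHull ℝ S)) (interior (convexHull ℝ T)) →
      (∀ k : ℕ, 1 ≤ k → dirichletEigenvalue (interior (convexHull ℝ S)) k =
        dirichletEigenvalue (interior (convexHull ℝ T)) k) ∧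
      (IsSpecial S → ∃ φ : ℂ ≃ᵢ ℂ, φ '' interior (convexHull ℝ S) = interior (convexHull ℝ T)) := by
  refine ⟨fun n m p q d κ C hp hq hd h1 h2 hκ h k _ => ?_, fun S T hS hT hS' hT' h => ?_⟩
  · refine Pool.Agent.H98.SD.sparse hp hq hd h1 h2 hκ (C := C) (fun r hr F hF => ?_) k
    simp only [← Pool.Agent.H98.SD.mlt_eq]
    exact h r hr F hF
  · have key : ∃ (m : ℕ) (q : Fin (m + 3) → ℂ), IsConvexPolygon q ∧
        region q = interior (convexHull ℝ T) := Pool.Agent.Y459.HI.vs T hT hT'
    have key' : ∃ (n : ℕ) (p : Fin (n + 3) → ℂ), IsConvexPolygon p ∧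
        region p = interior (convexHull ℝ S) := Pool.Agent.Y459.HI.vs S hS hS'
    obtain ⟨m, q, hq, e⟩ := key
    obtain ⟨n, p, hp, e'⟩ := key'
    have hi : Pool.Agent.W703.GP.Isospectral (interior (convexHull ℝ S)) (region q) := by
      rw [← e']
      refine Pool.Agent.H98.SD.sparse_o hp hq fun κ hκ => ?_
      obtain ⟨C, hC⟩ := h κ hκ
      refine ⟨C, fun r hr F hF => ?_⟩
      simp only [← Pool.Agent.H98.SD.mlt_eq]
      rw [e, e']
      exact hC r hr F hF
    rw [← e]
    refine ⟨fun k _ => hi k, ?_⟩
    rintro (⟨a, b, c, rfl⟩ | ⟨a, b, c, rfl⟩ | ⟨N, c, v, hc, rfl⟩)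
    · obtain ⟨p', hp', e2⟩ := Pool.Agent.R225.LP.tri_poly a b c hS'
      rw [← e2] at hi ⊢
      exact Pool.Agent.R225.LP.triangle p' hp' m q hq hi
    · exact Pool.Agent.H98.SD.par_iso hS' hq hi
    · exact Pool.Agent.Y289.HI.regular N m c v hc q hq hi

end Pool.Agent.Results.MP_5b0138_an.SparseSpectralDifferences
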